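import Pool.Agent.Helper60.Plz.Defs

set_option autoImplicit false

namespace Pool.Agent.Helper28.Plz

open Pool.Agent.Helper60.Plz

theorem packetG : Pool.Agent.Helper60.Plz.GoalG := by
  classical
  intro a b Γ _ _ π hπ
  refine ⟨?_, ?_⟩
  · rintro ⟨i, j, c⟩
    have hsub : (lg π).neighborSet (i, j, c) ⊆
        (((Finset.univ.erase j).image (fun j' : Fin a => ((i, j', c) : Fin b × Fin a × Γ))) ∪
          ((Finset.univ.erase i).image (fun i' : Fin b =>
            ((i', j, c * π (i, j) * π (i', j)) : Fin b × Fin a × Γ))) :
            Finset (Fin b × Fin a × Γ)) := by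
      rintro ⟨i', j', c'⟩ ⟨hne, h | h⟩
      · simp only [lend, Sum.inl.injEq, Prod.mk.injEq] at h
        obtain ⟨rfl, rfl⟩ := h
        simp only [Finset.coe_union, Set.mem_union, Finset.coe_image, Set.mem_image]
        left
        refine ⟨j', ?_, rfl⟩
        simp only [Finset.coe_erase, Finset.coe_univ, Set.mem_sdiff, Set.mem_univ,
          Set.mem_singleton_iff, true_and]
        rintro rfl
        exact hne rfl
      · simp only [rend, Sum.inr.injEq, Prod.mk.injEq] at h
        obtain ⟨rfl, h⟩ := h
        simp only [Finset.coe_union, Set.mem_union, Finset.coe_image, Set.mem_image]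
        right
        refine ⟨i', ?_, ?_⟩
        · simp only [Finset.coe_erase, Finset.coe_univ, Set.mem_sdiff, Set.mem_univ,
            Set.mem_singleton_iff, true_and]
          rintro rfl
          exact hne (by rw [mul_right_cancel h])
        · rw [h, mul_assoc, hπ, mul_one]
    have h1 := Set.ncard_le_ncard hsub (Finset.finite_toSet _)
    rw [Set.ncard_coe_finset] at h1
    have h2 := Finset.card_union_le
      ((Finset.univ.erase j).image (fun j' : Fin a => ((i, j', c) : Fin b × Fin a × Γ)))
      ((Finset.univ.erase i).image (fun i' : Fin b =>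
            ((i', j, c * π (i, j) * π (i', j)) : Fin b × Fin a × Γ)))
    have h3 : ((Finset.univ.erase j).image
        (fun j' : Fin a => ((i, j', c) : Fin b × Fin a × Γ))).card ≤ a - 1 := by
      refine Finset.card_image_le.trans ?_
      rw [Finset.card_erase_of_mem (Finset.mem_univ _), Finset.card_univ, Fintype.card_fin]
    have h4 : ((Finset.univ.erase i).image (fun i' : Fin b =>
            ((i', j, c * π (i, j) * π (i', j)) : Fin b × Fin a × Γ))).card ≤ b - 1 := by
      refine Finset.card_image_le.trans ?_
      rw [Finset.card_erase_of_mem (Finset.mem_univ _), Finset.card_univ, Fintype.card_fin]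
    have ha : 0 < a := j.pos
    have hb : 0 < b := i.pos
    omega
  · rintro (⟨i, c⟩ | ⟨j, c⟩)
    · have hsub : (endGraph lend (rend π) Set.univ).neighborSet (Sum.inl (i, c)) ⊆
          ((Finset.univ.image (fun j : Fin a =>
            (Sum.inr (j, c * π (i, j)) : (Fin b × Γ) ⊕ (Fin a × Γ)))) :
              Finset ((Fin b × Γ) ⊕ (Fin a × Γ))) := by
        rintro v ⟨_, ⟨i', j', c'⟩, _, ⟨h1, h2⟩ | ⟨h1, h2⟩⟩
        · simp only [lend, Sum.inl.injEq, Prod.mk.injEq] at h1
          obtain ⟨rfl, rfl⟩ := h1
          rw [← h2]
          simp [rend]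
        · simp [rend] at h2
      have h1 := Set.ncard_le_ncard hsub (Finset.finite_toSet _)
      rw [Set.ncard_coe_finset] at h1
      refine h1.trans (Finset.card_image_le.trans ?_)
      rw [Finset.card_univ, Fintype.card_fin]
      omega
    · have hsub : (endGraph lend (rend π) Set.univ).neighborSet (Sum.inr (j, c)) ⊆
          ((Finset.univ.image (fun i : Fin b =>
            (Sum.inl (i, c * π (i, j)) : (Fin b × Γ) ⊕ (Fin a × Γ)))) :
              Finset ((Fin b × Γ) ⊕ (Fin a × Γ))) := by
        rintro v ⟨_, ⟨i', j', c'⟩, _, ⟨h1, h2⟩ | ⟨h1, h2⟩⟩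
        · simp [lend] at h1
        · simp only [rend, Sum.inr.injEq, Prod.mk.injEq] at h2
          obtain ⟨rfl, rfl⟩ := h2
          rw [← h1]
          simp [lend, mul_assoc, hπ]
      have h1 := Set.ncard_le_ncard hsub (Finset.finite_toSet _)
      rw [Set.ncard_coe_finset] at h1
      refine h1.trans (Finset.card_image_le.trans ?_)
      rw [Finset.card_univ, Fintype.card_fin]
      omega

end Pool.Agent.Helper28.Plz
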