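import Pool.Agent.Helper60.Plz.Defs

set_option autoImplicit false

namespace Pool.Agent.Helper28.Plz

open Pool.Agent.Helper60.Plz

/-- The group coordinate of an end. -/
def gc {a b : ℕ} {Γ : Type} : (Fin b × Γ) ⊕ (Fin a × Γ) → Γ
  | Sum.inl p => p.2
  | Sum.inr p => p.2

theorem packetH : Pool.Agent.Helper60.Plz.GoalH := by
  intro a b g Γ _ _ π hπ hl n v hn hng hadj hnb
  have hex : ∀ i < n, ∃ x : Fin b × Fin a × Γ,
      (lend x = v i ∧ rend π x = v (i + 1)) ∨ (lend x = v (i + 1) ∧ rend π x = v i) := by
    intro i hi
    obtain ⟨_, x, _, hx⟩ := hadj i hi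
    exact ⟨x, hx⟩
  obtain ⟨x0, _⟩ := hex 0 (by omega)
  have hex2 : ∀ i, ∃ x : Fin b × Fin a × Γ, i < n →
      ((lend x = v i ∧ rend π x = v (i + 1)) ∨ (lend x = v (i + 1) ∧ rend π x = v i)) := by
    intro i
    by_cases hi : i < n
    · obtain ⟨x, hx⟩ := hex i hi
      exact ⟨x, fun _ => hx⟩
    · exact ⟨x0, fun h => absurd h hi⟩
  choose x hx using hex2
  have key : ∀ k, k ≤ n → gc (v k) =
      gc (v 0) * ((List.range k).map (fun i => π ((x i).1, (x i).2.1))).prod := by
    intro k
    induction k with
    | zero => intro _; simp
    | succ k ih =>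
      intro hk
      rw [List.range_succ, List.map_append, List.prod_append, ← mul_assoc, ← ih (by omega)]
      rcases hx k (by omega) with ⟨h1, h2⟩ | ⟨h1, h2⟩
      · rw [← h1, ← h2]
        simp [gc, lend, rend]
      · rw [← h1, ← h2]
        simp only [gc, lend, rend, List.map_cons, List.map_nil, List.prod_cons, List.prod_nil,
          mul_one]
        rw [mul_assoc, hπ, mul_one]
  intro hcl
  have h0 := key n le_rfl
  rw [hcl] at h0
  have hprod : ((List.range n).map (fun i => π ((x i).1, (x i).2.1))).prod = 1 := by
    have := h0.symm
    rwa [mul_eq_left] at this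
  have := hl ((List.range n).map (fun i => ((x i).1, (x i).2.1))) (by
      intro h
      have := congrArg List.length h
      simp at this
      omega) (by simpa using hng) (by
      rw [List.isChain_iff_getElem]
      intro i hi heq
      simp only [List.length_map, List.length_range] at hi
      simp only [List.getElem_map, List.getElem_range] at heq
      have e1 : (x i).1 = (x (i+1)).1 := (Prod.mk.inj heq).1
      have e2 : (x i).2.1 = (x (i+1)).2.1 := (Prod.mk.inj heq).2
      have hxeq : x i = x (i + 1) → False := by
        intro hxx
        have h1 := hx i (by omega)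
        have h2 := hx (i + 1) (by omega)
        rw [← hxx] at h2
        have hne := hnb i (by omega)
        have hadj1 := (hadj i (by omega)).1
        have hadj2 := (hadj (i + 1) (by omega)).1
        rcases h1 with ⟨p, q⟩ | ⟨p, q⟩ <;> rcases h2 with ⟨r, s⟩ | ⟨r, s⟩
        · exact hadj1 (p.symm.trans r)
        · exact hne (p.symm.trans r)
        · exact hne (q.symm.trans s)
        · exact hadj2 (p.symm.trans r)
      apply hxeq
      have h1 := hx i (by omega)
      have h2 := hx (i + 1) (by omega)
      rcases h1 with ⟨p, q⟩ | ⟨p, q⟩ <;> rcases h2 with ⟨r, s⟩ | ⟨r, s⟩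
      · exfalso
        have := q.trans r.symm
        simp [lend, rend] at this
      · have := q.trans s.symm
        simp only [rend, Sum.inr.injEq, Prod.mk.injEq] at this
        have h3 : (x i).2.2 = (x (i+1)).2.2 := by
          have := this.2
          rw [e1, e2] at this
          exact mul_right_cancel this
        exact Prod.ext e1 (Prod.ext e2 h3)
      · have := p.trans r.symm
        simp only [lend, Sum.inl.injEq, Prod.mk.injEq] at this
        exact Prod.ext e1 (Prod.ext e2 this.2)
      · exfalso
        have := p.trans s.symm
        simp [lend, rend] at this)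
  apply this
  rw [List.map_map]
  exact hprod

end Pool.Agent.Helper28.Plz
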